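import Pool.Agent.H979Z.DL.Main

namespace Pool.Agent.Results.MP_34ac72_mp.ACounterexample

open H930Z.Riem H979Z.Tau

/-- There is a tau-symmetric deformation of the Riemann hierarchy with `K = ∂_x`, in standard
form, with `a = 0` and `a_{(2^9)} = 1`. -/
theorem result : ∃ (Q h : ℕ → Ahat) (c : (k : ℕ) → Nat.Partition k → ℂ),
    IsTauSym Q h ∧ IsStandard h 0 c ∧
      ∃ l : Nat.Partition 18, l.parts = Multiset.replicate 9 2 ∧ IsP l ∧ c 18 l = 1 :=
  H979Z.DL.main

end Pool.Agent.Results.MP_34ac72_mp.ACounterexample
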